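import Pool.Agent.H7.GX.Stmts

/-!
# Row GGPX of the board gx10 (MP_fd41b2_co): good vertices which are exceptional for each other
-/

set_option autoImplicit false

open Finset

namespace Pool.GX7

open Pool.Agent.H23.KT Pool.Agent.H46.KW Pool.KQ Pool.GT7 Pool.GU7 Pool.GV7

private lemma GGPX_deg {V : Type} [Fintype V] [DecidableEq V] {G : SimpleGraph V} {p a : ℕ}
    {e C : ℝ} {z : V} {P : Fin (p + 3) → Finset V} {U : Finset V}
    (hS : Str G p a e C (nb G univ z) P U) (i : Fin (p + 3)) (x : V) (hx : x ∈ P i) :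
    ((p : ℝ) + 2) * ((1 - e - e1 p) * a) ≤ ((nb G (nb G univ z) x).card : ℝ) := by
  classical
  have hsub : (univ.erase i).biUnion (fun l => nb G (P l) x) ⊆ nb G (nb G univ z) x := by
    intro y hy
    obtain ⟨l, -, hl⟩ := mem_biUnion.1 hy
    obtain ⟨h1, h2⟩ := (mem_nb G).1 hl
    exact (mem_nb G).2 ⟨(hS.cov y).2 (Or.inr ⟨l, h1⟩), h2⟩
  have hdis : ∀ l ∈ (univ.erase i : Finset (Fin (p + 3))), ∀ m ∈ (univ.erase i : Finset (Fin (p + 3))),
      l ≠ m → Disjoint (nb G (P l) x) (nb G (P m) x) := by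
    intro l _ m _ hlm
    rw [Finset.disjoint_left]
    intro y h1 h2
    exact (Finset.disjoint_left.1 (hS.par.dis l m hlm)) ((mem_nb G).1 h1).1 ((mem_nb G).1 h2).1
  have hc := Finset.card_le_card hsub
  rw [Finset.card_biUnion hdis] at hc
  have hc' : (∑ l ∈ univ.erase i, ((nb G (P l) x).card : ℝ)) ≤
      ((nb G (nb G univ z) x).card : ℝ) := by exact_mod_cast hc
  refine le_trans ?_ hc'
  have hl : ∀ l ∈ (univ.erase i : Finset (Fin (p + 3))),
      (1 - e - e1 p) * a ≤ ((nb G (P l) x).card : ℝ) := by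
    intro l hl
    have hli : l ≠ i := (mem_erase.1 hl).1
    have h1 := hS.mis i x hx l hli
    have h2 := hS.lo l
    have h3 : ((nb G (P l) x).card : ℝ) + ((non G (P l) x).card : ℝ) = ((P l).card : ℝ) := by
      have h4 := Finset.card_filter_add_card_filter_not (s := P l) (fun y => G.Adj x y)
      unfold nb non
      exact_mod_cast h4
    nlinarith
  have hs := Finset.sum_le_sum hl
  rw [Finset.sum_const, Finset.card_erase_of_mem (mem_univ i), Finset.card_univ, Fintype.card_fin,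
    nsmul_eq_mul] at hs
  have h5 : ((p + 3 - 1 : ℕ) : ℝ) = (p : ℝ) + 2 := by
    rw [show p + 3 - 1 = p + 2 by omega]
    push_cast
    ring
  rwa [h5] at hs

private lemma GGPX_lim (p : ℕ) (c : ℝ) (hc : 0 < c) (C₁ : ℕ) :
    ∃ a₀ : ℕ, ∀ a ≥ a₀, 1 ≤ a ∧
      (1 - c) * (((a : ℝ) + 1) ^ (p + 2) * ((a : ℝ) + C₁)) ≤ (a : ℝ) ^ (p + 3) := by
  have h1 : Filter.Tendsto (fun x : ℝ => (1 - c) * ((1 + x) ^ (p + 2) * (1 + C₁ * x))) (nhds 0)
      (nhds ((1 - c) * ((1 + 0) ^ (p + 2) * (1 + C₁ * 0)))) := by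
    apply Continuous.tendsto
    fun_prop
  have h2 : Filter.Tendsto (fun a : ℕ => (1 : ℝ) / a) Filter.atTop (nhds 0) :=
    tendsto_one_div_atTop_nhds_zero_nat
  have h3 := h1.comp h2
  have h4 : (1 - c) * ((1 + 0) ^ (p + 2) * (1 + (C₁ : ℝ) * 0)) < 1 := by
    simp
    exact hc
  have h5 := h3.eventually (Iio_mem_nhds h4)
  obtain ⟨a₀, ha₀⟩ := Filter.eventually_atTop.1 h5
  refine ⟨max a₀ 1, fun a ha => ?_⟩
  have ha1 : 1 ≤ a := (le_max_right _ _).trans ha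
  refine ⟨ha1, ?_⟩
  have h6 := ha₀ a ((le_max_left _ _).trans ha)
  simp only [Function.comp] at h6
  have hpos : (0 : ℝ) < a := by exact_mod_cast ha1
  have h7 : ((a : ℝ) + 1) ^ (p + 2) * ((a : ℝ) + C₁) =
      (a : ℝ) ^ (p + 3) * ((1 + 1 / (a : ℝ)) ^ (p + 2) * (1 + C₁ * (1 / (a : ℝ)))) := by
    have e1 : (a : ℝ) + 1 = a * (1 + 1 / a) := by field_simp
    have e2 : (a : ℝ) + C₁ = a * (1 + C₁ * (1 / a)) := by field_simp
    rw [e1, e2, mul_pow]
    ring
  rw [h7]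
  calc (1 - c) * ((a : ℝ) ^ (p + 3) * ((1 + 1 / (a : ℝ)) ^ (p + 2) * (1 + C₁ * (1 / (a : ℝ))))) =
        (a : ℝ) ^ (p + 3) *
          ((1 - c) * ((1 + 1 / (a : ℝ)) ^ (p + 2) * (1 + C₁ * (1 / (a : ℝ))))) := by ring
    _ ≤ (a : ℝ) ^ (p + 3) * 1 := mul_le_mul_of_nonneg_left h6.le (by positivity)
    _ = _ := mul_one _

private lemma GGPX_bal (p a : ℕ) :
    bal (p + 3) ((p + 3) * a + (p + 2)) = a * (a + 1) ^ (p + 2) := by
  unfold bal
  have h1 : ((p + 3) * a + (p + 2)) / (p + 3) = a := by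
    rw [Nat.mul_add_div (by omega), Nat.div_eq_of_lt (by omega), add_zero]
  have h2 : ((p + 3) * a + (p + 2)) % (p + 3) = p + 2 := by
    rw [Nat.mul_add_mod, Nat.mod_eq_of_lt (by omega)]
  rw [h1, h2, show p + 3 - (p + 2) = 1 by omega, pow_one]

theorem GGPX_thm (h1 : Pool.KR.STGStmt) : GGPXStmt := by
  intro p r hpr
  obtain ⟨c, hc, hc1, e₀, he₀, he₀', H⟩ := h1 p 1 one_pos
  refine ⟨e₀, he₀, he₀', ?_⟩
  intro C C₁
  obtain ⟨a₁, ha₁⟩ := H C
  obtain ⟨a₂, ha₂⟩ := GGPX_lim p c hc C₁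
  refine ⟨max (max a₁ a₂) (max r 1), ?_⟩
  intro a ha V _ _ G hG e he he' v z P P' U U' hS hS' hzU hk
  have hb1 : a₁ ≤ a := (le_max_left _ _).trans ((le_max_left _ _).trans ha)
  have hb2 : a₂ ≤ a := (le_max_right _ _).trans ((le_max_left _ _).trans ha)
  have hb3 : r ≤ a := (le_max_left _ _).trans ((le_max_right _ _).trans ha)
  obtain ⟨ha1, hlim⟩ := ha₂ a hb2
  have hr2 := hpr.r2
  have hrb := hpr.rb
  have hp4 : 4 ≤ p := by omega
  have hGG : Pool.KR.GG G p a := by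
    refine ⟨hG.cb, fun u => (hG.deg u).trans ?_⟩
    omega
  have hapos : (0 : ℝ) < a := by exact_mod_cast ha1
  have hkc : (1 - c) * (bal (p + 3) ((p + 3) * a + (p + 2)) : ℝ) ≤ kc G (nb G univ z) (p + 3) := by
    rw [GGPX_bal]
    push_cast
    have hkr : (a : ℝ) ^ (p + 4) ≤ ((a : ℝ) + C₁) * kc G (nb G univ z) (p + 3) := by
      exact_mod_cast hk
    have hC1 : (0 : ℝ) < (a : ℝ) + C₁ := by
      have : (0 : ℝ) ≤ C₁ := Nat.cast_nonneg _
      linarith
    refine le_of_mul_le_mul_left ?_ hC1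
    refine le_trans ?_ hkr
    calc ((a : ℝ) + C₁) * ((1 - c) * ((a : ℝ) * ((a : ℝ) + 1) ^ (p + 2))) =
          a * ((1 - c) * (((a : ℝ) + 1) ^ (p + 2) * ((a : ℝ) + C₁))) := by ring
      _ ≤ a * (a : ℝ) ^ (p + 3) := mul_le_mul_of_nonneg_left hlim hapos.le
      _ = (a : ℝ) ^ (p + 4) := by ring
  have hco := ha₁ a hb1 G hGG v e P U hS he he' z hzU hkc
  rw [one_mul] at hco
  have he1 : e ≤ e1 p := he'.trans he₀'
  have hp4r : (4 : ℝ) ≤ p := by exact_mod_cast hp4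
  have he1s : ((p : ℝ) + 2) * e1 p ≤ 1 / 16 := by
    unfold e1
    rw [mul_one_div, div_le_div_iff₀ (by positivity) (by norm_num)]
    have h2 : (1 : ℝ) ≤ ((p : ℝ) + 3) ^ 2 := by nlinarith
    have h3 : ((p : ℝ) + 2) ≤ ((p : ℝ) + 3) ^ 3 := by
      calc ((p : ℝ) + 2) ≤ ((p : ℝ) + 3) * 1 := by linarith
        _ ≤ ((p : ℝ) + 3) * ((p : ℝ) + 3) ^ 2 := mul_le_mul_of_nonneg_left h2 (by linarith)
        _ = _ := by ring
    linarith
  -- the degree bound, simplified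
  have hdeg : ∀ (y : V) (Q : Fin (p + 3) → Finset V) (W : Finset V),
      Str G p a e C (nb G univ y) Q W → ∀ i x, x ∈ Q i →
      ((p : ℝ) + 2 - 1 / 8) * a ≤ ((nb G (nb G univ y) x).card : ℝ) := by
    intro y Q W hQ i x hx
    refine le_trans ?_ (GGPX_deg hQ i x hx)
    have h2 : ((p : ℝ) + 2) * (1 - e - e1 p) ≥ (p : ℝ) + 2 - 1 / 8 := by
      have h3 : ((p : ℝ) + 2) * e ≤ ((p : ℝ) + 2) * e1 p :=
        mul_le_mul_of_nonneg_left he1 (by linarith)
      linarith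
    calc ((p : ℝ) + 2 - 1 / 8) * a ≤ (((p : ℝ) + 2) * (1 - e - e1 p)) * a :=
          mul_le_mul_of_nonneg_right h2 hapos.le
      _ = _ := by ring
  constructor
  · intro x hx
    unfold Pool.KR.co at hx
    obtain ⟨hxv, hzx⟩ := (mem_nb G).1 hx
    have hxz : x ∈ nb G univ z := (mem_nb G).2 ⟨mem_univ _, hzx⟩
    rcases (hS.cov x).1 hxv with h2 | ⟨i, hi⟩
    · exact mem_union_left _ h2
    rcases (hS'.cov x).1 hxz with h2 | ⟨k, hk'⟩
    · exact mem_union_right _ h2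
    exfalso
    have hA := hdeg v P U hS i x hi
    have hB := hdeg z P' U' hS' k x hk'
    have hint : nb G (nb G univ v) x ∩ nb G (nb G univ z) x ⊆ Pool.KR.co G v z := by
      intro y hy
      obtain ⟨h2, h3⟩ := mem_inter.1 hy
      unfold Pool.KR.co
      exact (mem_nb G).2 ⟨((mem_nb G).1 h2).1, ((mem_nb G).1 ((mem_nb G).1 h3).1).2⟩
    have huni : nb G (nb G univ v) x ∪ nb G (nb G univ z) x ⊆ nb G univ x := by
      intro y hy
      rcases mem_union.1 hy with h2 | h2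
      · exact (mem_nb G).2 ⟨mem_univ _, ((mem_nb G).1 h2).2⟩
      · exact (mem_nb G).2 ⟨mem_univ _, ((mem_nb G).1 h2).2⟩
    have h2 := Finset.card_le_card hint
    have h3 := (Finset.card_le_card huni).trans (hG.deg x)
    have h4 := Finset.card_union_add_card_inter (nb G (nb G univ v) x) (nb G (nb G univ z) x)
    have h2' : ((nb G (nb G univ v) x ∩ nb G (nb G univ z) x).card : ℝ) ≤
        ((Pool.KR.co G v z).card : ℝ) := by exact_mod_cast h2
    have h3' : ((nb G (nb G univ v) x ∪ nb G (nb G univ z) x).card : ℝ) ≤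
        ((p : ℝ) + 3) * a + r := by exact_mod_cast h3
    have h4' : ((nb G (nb G univ v) x ∪ nb G (nb G univ z) x).card : ℝ) +
        ((nb G (nb G univ v) x ∩ nb G (nb G univ z) x).card : ℝ) =
        ((nb G (nb G univ v) x).card : ℝ) + ((nb G (nb G univ z) x).card : ℝ) := by
      exact_mod_cast h4
    have hra : (r : ℝ) ≤ a := by exact_mod_cast hb3
    nlinarith
  · have hvz : v ∈ nb G univ z := by
      have h2 : z ∈ nb G univ v := (hS.cov z).2 (Or.inl hzU)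
      exact (mem_nb G).2 ⟨mem_univ _, ((mem_nb G).1 h2).2.symm⟩
    rcases (hS'.cov v).1 hvz with h2 | ⟨k, hk'⟩
    · exact h2
    exfalso
    have hB := hdeg z P' U' hS' k v hk'
    have hsub : nb G (nb G univ z) v ⊆ Pool.KR.co G v z := by
      intro y hy
      obtain ⟨h2, h3⟩ := (mem_nb G).1 hy
      unfold Pool.KR.co
      exact (mem_nb G).2 ⟨(mem_nb G).2 ⟨mem_univ _, h3⟩, ((mem_nb G).1 h2).2⟩
    have h2 : ((nb G (nb G univ z) v).card : ℝ) ≤ ((Pool.KR.co G v z).card : ℝ) := by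
      exact_mod_cast Finset.card_le_card hsub
    nlinarith

end Pool.GX7
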